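import Pool.Agent.MP_8be872_ag.H63.ApiC

/-! Linear vector fields and the ideal generated by the image of an idempotent. -/

set_option linter.unusedSectionVars false

namespace Pool.Agent.MP_8be872_ag.H80

open Finset H38 H56 H63 MvPolynomial

variable {E O : Type} [Fintype E] [Fintype O] [DecidableEq E] [DecidableEq O]

theorem sg_false : sg false = 1 := rfl

theorem sg_true : sg true = -1 := rfl

theorem lin_mem {Q : (E ⊕ O → ℕ) → Prop} {u : E ⊕ O → ℂ}
    (h : ∀ g, u g ≠ 0 → Q (Pi.single g 1)) : (lin u : Module.End ℂ (Sp E O)) ∈ words Q := by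
  refine Submodule.sum_mem _ fun g _ => ?_
  by_cases hg : u g = 0
  · rw [hg, zero_smul]
    exact Submodule.zero_mem _
  · exact Submodule.smul_mem _ _ (gn_mem_words (h g hg))

theorem lin_add (u v : E ⊕ O → ℂ) : (lin (u + v) : Module.End ℂ (Sp E O)) = lin u + lin v := by
  simp only [lin, Pi.add_apply, add_smul, Finset.sum_add_distrib]

theorem lin_zero : (lin 0 : Module.End ℂ (Sp E O)) = 0 := by
  simp [lin]

theorem lin_single (g : E ⊕ O) : (lin (Pi.single g 1) : Module.End ℂ (Sp E O)) = gn g := by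
  rw [lin, Finset.sum_eq_single g (fun b _ hb => by rw [Pi.single_eq_of_ne hb, zero_smul])
    (fun h => absurd (Finset.mem_univ g) h), Pi.single_eq_same, one_smul]

theorem lin_mul (a b : Matrix (E ⊕ O) (E ⊕ O) ℂ) (g : E ⊕ O) :
    (lin ((a * b) g) : Module.End ℂ (Sp E O)) = ∑ g', a g g' • lin (b g') := by
  simp only [lin, Matrix.mul_apply, Finset.sum_smul, Finset.smul_sum, smul_smul]
  exact Finset.sum_comm

/-- The vector field of a matrix. -/
noncomputable def lv (a : Matrix (E ⊕ O) (E ⊕ O) ℂ) : Module.End ℂ (Sp E O) :=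
  vf fun g => lin (a g)

/-- The matrix shifts the parity by `s`. -/
def Par (a : Matrix (E ⊕ O) (E ⊕ O) ℂ) (s : Bool) : Prop :=
  ∀ g g', a g g' ≠ 0 → g'.isRight = xor g.isRight s

theorem Par.words {a : Matrix (E ⊕ O) (E ⊕ O) ℂ} {s : Bool} (h : Par a s) (g : E ⊕ O) :
    (lin (a g) : Module.End ℂ (Sp E O)) ∈ words fun μ => od μ = xor g.isRight s :=
  lin_mem fun g' hg => by rw [od_single, h g g' hg]

theorem lv_lin {a : Matrix (E ⊕ O) (E ⊕ O) ℂ} {s : Bool} (h : Par a s)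
    (b : Matrix (E ⊕ O) (E ⊕ O) ℂ) (g : E ⊕ O) (t : ℂ)
    (hb : ∀ g', b g g' ≠ 0 → sg (s && g'.isRight) = t) :
    lv a * lin (b g) - t • (lin (b g) * lv a) = lin ((b * a) g) := by
  rw [lin_mul]
  conv_lhs => rw [lin]
  rw [Finset.mul_sum, Finset.sum_mul, Finset.smul_sum, ← Finset.sum_sub_distrib]
  refine Finset.sum_congr rfl fun g' _ => ?_
  by_cases hg : b g g' = 0
  · simp [hg]
  · have h1 := vf_gn (δ := fun g => lin (a g)) h.words g'
    rw [hb g' hg] at h1
    rw [← h1, mul_smul_comm, smul_mul_assoc, smul_sub, smul_comm t]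
    rfl

theorem lv_anti {a b : Matrix (E ⊕ O) (E ⊕ O) ℂ} (ha : Par a true) (hb : Par b true) :
    lv a * lv b + lv b * lv a = lv (b * a + a * b) := by
  have h1 := vf_br_vf (δ := fun g => lin (a g)) (δ' := fun g => lin (b g)) ha.words hb.words
  have e : ∀ x : Module.End ℂ (Sp E O), sg (true && true) • x = -x := fun x => by
    rw [Bool.and_self, sg_true]
    exact neg_one_smul ℂ x
  simp only [e, sub_neg_eq_add] at h1
  refine h1.trans (congrArg vf (funext fun g => ?_))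
  have h2 := lv_lin ha b g (sg (true && xor g.isRight true)) fun g' hg => by rw [hb g g' hg]
  have h3 := lv_lin hb a g (sg (true && xor g.isRight true)) fun g' hg => by rw [ha g g' hg]
  have h4 : (b * a + a * b) g = (b * a) g + (a * b) g := rfl
  rw [h4, lin_add, ← h2, ← h3]
  rfl

theorem lv_zero : (lv 0 : Module.End ℂ (Sp E O)) = 0 := by
  have h : ∀ g : E ⊕ O, (lin ((0 : Matrix (E ⊕ O) (E ⊕ O) ℂ) g) : Module.End ℂ (Sp E O)) = 0 :=
    fun _ => lin_zero
  simp [lv, vf, h]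

theorem lv_sq {a : Matrix (E ⊕ O) (E ⊕ O) ℂ} (ha : Par a true) (h : a * a = 0) :
    lv a * lv a = 0 := by
  have h1 := lv_anti ha ha
  rw [h, add_zero, lv_zero, ← two_smul ℂ] at h1
  exact (smul_eq_zero.1 h1).resolve_left two_ne_zero

theorem lv_mem {a : Matrix (E ⊕ O) (E ⊕ O) ℂ} {Q Q' : (E ⊕ O → ℕ) → Prop}
    (h : ∀ g g' (μ : E ⊕ O → ℕ), a g g' ≠ 0 → Q (μ + Pi.single g 1) → Q' (μ + Pi.single g' 1))
    {x : Sp E O}
    (hx : x ∈ mono Q) : lv a x ∈ mono Q' := by
  refine vf_mem (Pg := fun g ν => ∃ g', a g g' ≠ 0 ∧ ν = Pi.single g' 1)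
    (fun g => lin_mem fun g' hg => ⟨g', hg, rfl⟩) hx ?_
  rintro g μ ν h1 ⟨g', h2, rfl⟩
  rw [add_comm]
  exact h g g' μ h2 h1

theorem comm_words {A : E ⊕ O → Prop} {L m : Module.End ℂ (Sp E O)}
    (hL : ∀ g, A g → L * gn g = gn g * L) (hm : m ∈ words (sup A)) : L * m = m * L := by
  induction hm using Submodule.span_induction with
  | mem x hx =>
    obtain ⟨l, hl, rfl⟩ := hx
    induction l with
    | nil => simp
    | cons g l ih =>
      rw [count_cons', H63.sup_add, sup_single] at hl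
      rw [List.map_cons, List.prod_cons, ← mul_assoc, hL g hl.2, mul_assoc, ih hl.1, mul_assoc]
  | zero => simp
  | add x y _ _ h1 h2 => rw [mul_add, add_mul, h1, h2]
  | smul c x _ h1 => rw [mul_smul_comm, smul_mul_assoc, h1]

theorem aeval_semiconj {R : Type} [Ring R] [Algebra ℂ R] {N N' L : R} (h : N * L = L * N')
    (Q : Polynomial ℂ) : Polynomial.aeval N Q * L = L * Polynomial.aeval N' Q := by
  induction Q using Polynomial.induction_on' with
  | add p q h1 h2 => rw [map_add, map_add, add_mul, mul_add, h1, h2]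
  | monomial n a =>
    have h1 : N ^ n * L = L * N' ^ n := (SemiconjBy.pow_right (show SemiconjBy L N' N from h.symm) n).symm
    rw [Polynomial.aeval_monomial, Polynomial.aeval_monomial, mul_assoc, h1, ← mul_assoc,
      ← mul_assoc, Algebra.commutes]

/-- Vectors killed by a polynomial in `N` without roots at `-n`, `n ≥ m`. -/
def Vs {M : Type} [AddCommGroup M] [Module ℂ M] (N : Module.End ℂ M) (m : ℕ) : Submodule ℂ M where
  carrier := {y | ∃ Q : Polynomial ℂ, (∀ n : ℕ, m ≤ n → Q.eval (-(n : ℂ)) ≠ 0) ∧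
    Polynomial.aeval N Q y = 0}
  add_mem' := by
    rintro a b ⟨Q, h1, h2⟩ ⟨Q', h3, h4⟩
    refine ⟨Q * Q', fun n hn => by
      rw [Polynomial.eval_mul]
      exact mul_ne_zero (h1 n hn) (h3 n hn), ?_⟩
    rw [map_add]
    conv_lhs => enter [1]; rw [mul_comm, map_mul, Module.End.mul_apply, h2, map_zero]
    rw [map_mul, Module.End.mul_apply, h4, map_zero, add_zero]
  zero_mem' := ⟨1, fun n _ => by simp, map_zero _⟩
  smul_mem' := by
    rintro c a ⟨Q, h1, h2⟩
    exact ⟨Q, h1, by rw [map_smul, h2, smul_zero]⟩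

section

variable {M : Type} [AddCommGroup M] [Module ℂ M] {N L : Module.End ℂ M}

theorem Vs_le : Vs N 0 ≤ Vs N 1 := by
  rintro y ⟨Q, h1, h2⟩
  exact ⟨Q, fun n _ => h1 n (Nat.zero_le n), h2⟩

theorem Vs_comm (h : N * L = L * N) {m : ℕ} {y : M} (hy : y ∈ Vs N m) : L y ∈ Vs N m := by
  obtain ⟨Q, h1, h2⟩ := hy
  refine ⟨Q, h1, ?_⟩
  rw [← Module.End.mul_apply, aeval_semiconj h, Module.End.mul_apply, h2, map_zero]

theorem Vs_shift (h : N * L = L * (N + 1)) {y : M} (hy : y ∈ Vs N 1) : L y ∈ Vs N 0 := by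
  obtain ⟨Q, h1, h2⟩ := hy
  refine ⟨Q.comp (Polynomial.X - 1), fun n _ => ?_, ?_⟩
  · have h3 := h1 (n + 1) (by omega)
    rw [Polynomial.eval_comp, Polynomial.eval_sub, Polynomial.eval_X, Polynomial.eval_one]
    push_cast at h3
    rwa [neg_add, ← sub_eq_add_neg] at h3
  · rw [← Module.End.mul_apply, aeval_semiconj h, Polynomial.aeval_comp, map_sub,
      Polynomial.aeval_X, map_one, add_sub_cancel_right, Module.End.mul_apply, h2, map_zero]

end

theorem lv_idem {ν : Matrix (E ⊕ O) (E ⊕ O) ℂ} (h : Par ν false) (hν : ν * ν = ν) (g : E ⊕ O)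
    (y : Sp E O) : lin (ν g) y ∈ Vs (lv ν) 0 := by
  have h1 : ∀ g, lv ν * lin (ν g) = lin (ν g) * (lv ν + 1) := fun g => by
    have h2 := lv_lin h ν g 1 fun g' _ => by rw [Bool.false_and, sg_false]
    rw [hν, one_smul] at h2
    rw [mul_add, mul_one]
    exact sub_eq_iff_eq_add'.1 h2
  have h2 : ∀ g, lv ν * lin ((1 - ν) g) = lin ((1 - ν) g) * lv ν := fun g => by
    have h2 := lv_lin h (1 - ν) g 1 fun g' _ => by rw [Bool.false_and, sg_false]
    rw [sub_mul, Matrix.one_mul, hν, sub_self, one_smul] at h2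
    exact sub_eq_zero.1 (h2.trans lin_zero)
  have h3 : ∀ g, (gn g : Module.End ℂ (Sp E O)) = lin (ν g) + lin ((1 - ν) g) := fun g => by
    rw [← lin_add, ← lin_single]
    congr 1
    funext g'
    simp [Matrix.one_apply, Pi.single_apply, eq_comm]
  have h4 : mono (sup fun _ : E ⊕ O => True) ≤ Vs (lv ν) 1 := by
    refine mono_ind ⟨Polynomial.X, fun n hn => ?_, ?_⟩ fun g _ x _ hx => ?_
    · rw [Polynomial.eval_X, neg_ne_zero]
      exact Nat.cast_ne_zero.2 (by omega)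
    · rw [Polynomial.aeval_X]
      exact vf_one
    · rw [h3, LinearMap.add_apply]
      exact Submodule.add_mem _ (Vs_le (Vs_shift (h1 g) hx)) (Vs_comm (h2 g) hx)
  exact Vs_shift (h1 g) (h4 (mem_mono.2 fun _ _ _ _ _ => trivial))

theorem sum_proj_lt (φ : (E ⊕ O → ℕ) → ℕ) (N : ℕ) (x : Sp E O) :
    x - ∑ k ∈ range N, proj (fun μ => φ μ = k) x ∈ mono fun μ => N ≤ φ μ := by
  classical
  refine mem_mono.2 fun S m hm => ?_
  by_contra h
  apply hm
  rw [Pi.sub_apply, coeff_sub, Finset.sum_apply, coeff_sum]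
  simp only [coeff_proj]
  rw [Finset.sum_ite_eq, if_pos (Finset.mem_range.2 (not_le.1 h)), sub_self]

theorem pow_mem_fam {M Γ : Type} [AddCommGroup M] [Module ℂ M] [AddCommGroup Γ]
    (C : Γ → Submodule ℂ M) (L : Module.End ℂ M) (β : Γ)
    (h : ∀ γ, ∀ x ∈ C γ, L x ∈ C (γ + β)) (n : ℕ) (γ : Γ) {x : M} (hx : x ∈ C γ) :
    (L ^ n) x ∈ C (γ + n • β) := by
  induction n with
  | zero => simpa using hx
  | succ n ih =>
    rw [pow_succ', Module.End.mul_apply, succ_nsmul, ← add_assoc]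
    exact h _ _ ih

theorem pow_mem_sub {M : Type} [AddCommGroup M] [Module ℂ M] (C : Submodule ℂ M)
    (L : Module.End ℂ M) (h : ∀ x ∈ C, L x ∈ C) (n : ℕ) {x : M} (hx : x ∈ C) :
    (L ^ n) x ∈ C :=
  pow_mem_fam (Γ := Unit) (fun _ => C) L () (fun _ => h) n () hx

theorem map_sup_mem {M : Type} [AddCommGroup M] [Module ℂ M] {A B C : Submodule ℂ M}
    {L : Module.End ℂ M} (hA : ∀ x ∈ A, L x ∈ C) (hB : ∀ x ∈ B, L x ∈ C) {x : M}
    (hx : x ∈ A ⊔ B) : L x ∈ C := by
  obtain ⟨a, ha, b, hb, rfl⟩ := Submodule.mem_sup.1 hx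
  rw [map_add]
  exact C.add_mem (hA a ha) (hB b hb)

end Pool.Agent.MP_8be872_ag.H80
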