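import Pool.Agent.MP_8be872_ag.H80.ElimB

/-! Module Elim: an ideal generated by an acyclic complex of linear forms is acyclic. -/

set_option linter.unusedSectionVars false

namespace Pool.Agent.MP_8be872_ag.H80

open Finset H38 H56 H63 MvPolynomial

variable {E O J Γ : Type} [Fintype E] [Fintype O] [Fintype J] [DecidableEq E] [DecidableEq O]
  [DecidableEq J] [AddCommGroup Γ]
  {Al : Gn E O J → Prop} {c : Gn E O J → Γ} {δ : Gn E O J → Op E O J} {ω : Op E O J}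
  {f : J → MvPolynomial (E ⊕ J) ℂ} {j₀ : J} {K : Gn E O J → Prop} {l : Γ →+ ℤ}
  {d h : Matrix (Gn E O J) (Gn E O J) ℂ} {P : (Gn E O J → ℕ) → Prop}

theorem rel_pat {y : Sp (E ⊕ J) (O ⊕ J)} (hy : y ∈ rel f) (hp : y ∈ mono (pat {j₀})) :
    ∃ w, y = mul (f j₀ * X (.inr j₀) - 1) w := by
  have h1 : ∀ S, ∃ a, y S = (f j₀ * X (.inr j₀) - 1) * a := fun S => by
    by_cases h0 : y S = 0
    · exact ⟨0, by rw [h0, mul_zero]⟩
    obtain ⟨m, hm⟩ := MvPolynomial.exists_coeff_ne_zero h0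
    have h2 := mem_mono.1 hp S m hm
    have h3 : Ideal.span {y | ∃ j, Sum.inr j ∈ S ∧ y = f j * X (.inr j) - 1} ≤
        Ideal.span {f j₀ * X (.inr j₀) - 1} := by
      refine Ideal.span_mono ?_
      rintro _ ⟨j, hj, rfl⟩
      have h4 : j = j₀ := Finset.mem_singleton.1 (h2 j (by simp [ex, hj]))
      rw [h4]
      rfl
    exact Ideal.mem_span_singleton.1 (h3 (mem_rel.1 hy S))
  choose w hw using h1
  exact ⟨w, funext fun S => by rw [mul_apply', hw]⟩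

theorem split_rel {I : Submodule ℂ (Sp (E ⊕ J) (O ⊕ J))}
    (hI : ∀ y ∈ I, proj (pat {j₀}) y ∈ I) {z : Sp (E ⊕ J) (O ⊕ J)} (hp : z ∈ mono (pat {j₀}))
    (hz : z ∈ I ⊔ (rel f ⊔ mono (has K))) :
    ∃ w, z - mul (f j₀ * X (.inr j₀) - 1) w ∈ I ⊔ mono (has K) := by
  obtain ⟨i, hi, b, hb, e⟩ := Submodule.mem_sup.1 hz
  obtain ⟨r, hr, k, hk, rfl⟩ := Submodule.mem_sup.1 hb
  have h1 : proj (pat {j₀}) r ∈ rel f := by
    refine proj_rel (A := Finset.univ) (fun j _ m _ μ _ => ?_)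
      (mem_mono.2 fun _ _ _ _ _ => Finset.mem_univ _) hr
    refine forall_congr' fun i => ?_
    have h2 : (μ + ex ∅ m + Pi.single (tv j) 1 : Gn E O J → ℕ) (ev i) = μ (ev i) := by
      simp [ex]
    rw [h2]
  obtain ⟨w, hw⟩ := rel_pat h1 (proj_mem r)
  refine ⟨w, ?_⟩
  have h3 : z = proj (pat {j₀}) i + (proj (pat {j₀}) r + proj (pat {j₀}) k) := by
    rw [← map_add, ← map_add, e, proj_eq_self hp]
  have h4 : z - mul (f j₀ * X (.inr j₀) - 1) w = proj (pat {j₀}) i + proj (pat {j₀}) k := by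
    rw [← hw]
    conv_lhs => rw [h3]
    abel
  rw [h4]
  exact Submodule.add_mem_sup (hI i hi) (proj_mem_of hk)

/-- Closed under the three operators of the chart. -/
def Cls (f : J → MvPolynomial (E ⊕ J) ℂ) (j₀ : J) (C : Submodule ℂ (Sp (E ⊕ J) (O ⊕ J))) : Prop :=
  (∀ u ∈ C, mul (f j₀) u ∈ C) ∧ (∀ u ∈ C, gn (tv j₀) u ∈ C) ∧ ∀ u ∈ C, dr (tv j₀) u ∈ C

theorem Cls.sup {C C' : Submodule ℂ (Sp (E ⊕ J) (O ⊕ J))} (h1 : Cls f j₀ C) (h2 : Cls f j₀ C') :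
    Cls f j₀ (C ⊔ C') :=
  ⟨fun _ hu => map_sup_mem (fun y hy => Submodule.mem_sup_left (h1.1 y hy))
      (fun y hy => Submodule.mem_sup_right (h2.1 y hy)) hu,
    fun _ hu => map_sup_mem (fun y hy => Submodule.mem_sup_left (h1.2.1 y hy))
      (fun y hy => Submodule.mem_sup_right (h2.2.1 y hy)) hu,
    fun _ hu => map_sup_mem (fun y hy => Submodule.mem_sup_left (h1.2.2 y hy))
      (fun y hy => Submodule.mem_sup_right (h2.2.2 y hy)) hu⟩

theorem cls_mono {Q : (Gn E O J → ℕ) → Prop}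
    (h1 : ∀ m, coeff m (f j₀) ≠ 0 → ∀ μ, Q μ → Q (μ + ex ∅ m))
    (h2 : ∀ μ : Gn E O J → ℕ, Q (μ + Pi.single (tv j₀) 1) ↔ Q μ) : Cls f j₀ (mono Q) := by
  refine ⟨fun u hu => ?_, fun u hu => gn_mem _ hu fun μ => (h2 μ).2,
    fun u hu => dr_mem _ hu fun μ => (h2 μ).1⟩
  refine words_apply_mem (P := fun a => ∀ μ, Q μ → Q (μ + a))
    (mul_mem_words_of_pol (pol_mem.2 h1)) hu fun a b ha hb => ?_
  rw [add_comm]
  exact ha b hb

namespace Ctx

variable (H : Ctx Al c δ ω f j₀ K l d h P)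
include H

theorem cls_has : Cls f j₀ (mono (has K)) :=
  cls_mono (fun _ _ _ hμ => has_add.2 (Or.inl hμ)) fun _ =>
    ⟨fun hμ => (has_add.1 hμ).resolve_right fun h1 => H.good.alT j₀ (H.kAl _ (has_single.1 h1)),
      fun hμ => has_add.2 (Or.inl hμ)⟩

theorem cls_P : Cls f j₀ (mono P) := cls_mono H.pf H.pT

theorem cls_linI : Cls f j₀ (linI (h * d + d * h)) := by
  have h1 : ∀ (q : MvPolynomial (E ⊕ J) ℂ) (g : Gn E O J),
      (mul q * gn g : Op E O J) = gn g * mul q := fun q g =>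
    mul_comm_words q (gn_mem_words (P := fun _ => True) trivial)
  refine ⟨H.comm_linI (L := mul (f j₀)) fun g _ => h1 _ g,
    H.comm_linI (L := gn (tv j₀)) fun g _ => h1 (X (.inr j₀)) g,
    H.comm_linI (L := dr (tv j₀)) fun g hg => dr_tv_gn (H.ne_tv hg)⟩

omit H in
theorem cls_ev : Cls f j₀ (mono fun μ : Gn E O J → ℕ => μ (ev j₀) ≠ 0) :=
  cls_mono (fun _ _ _ hμ => by simpa [ex] using hμ) fun _ => by simp

theorem cech_tv (μ : Gn E O J → ℕ) :
    cech Al {j₀} ∅ (μ + Pi.single (tv j₀) 1) ↔ cech Al {j₀} ∅ μ := by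
  rw [cech_iff H.good, cech_iff H.good]
  refine and_congr (forall_congr' fun g => ?_) (by simp)
  by_cases e : g = tv j₀
  · simp [e]
  · rw [Pi.add_apply, Pi.single_eq_of_ne e, add_zero]

theorem cls_cech (p : Bool) : Cls f j₀ (mono fun μ => cech Al {j₀} ∅ μ ∧ od μ = p) := by
  refine cls_mono (fun m hm μ hμ => ?_) fun μ => ?_
  · have h1 := (pol_mem.1 (H.good.fw j₀) m hm).1
    have h2 : od (ex (∅ : Finset (O ⊕ J)) m) = false := by simp [od, ex]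
    obtain ⟨h3, h4⟩ := (cech_iff H.good μ).1 hμ.1
    refine ⟨(cech_iff H.good _).2 ⟨fun g hg => ?_, ?_⟩, by rw [od_add, h2, Bool.xor_false, hμ.2]⟩
    · by_cases e : μ g = 0
      · rw [Pi.add_apply, e, zero_add] at hg
        exact Or.inl (h1 g hg)
      · exact h3 g e
    · rw [Pi.add_apply]
      omega
  · rw [H.cech_tv, od_add, od_single]
    simp

theorem ZZ_pat {γ : Γ} {p : Bool} : ZZ Al c {j₀} ∅ γ p ≤ mono (pat {j₀}) :=
  mono_le fun μ hμ j hj => by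
    rcases ((cech_iff H.good μ).1 hμ.1).1 _ hj with h1 | h1 | h1
    · exact absurd h1 (H.good.alE j)
    · exact absurd h1 (by simp)
    · simpa using h1

/-- Clearing the denominator. -/
theorem clear_den {γ : Γ} {p : Bool} {x : Sp (E ⊕ J) (O ⊕ J)} (h1 : x ∈ ZZ Al c {j₀} ∅ γ p)
    (h2 : x ∈ mono P ⊔ mono (has K))
    (h3 : x ∈ linI (h * d + d * h) ⊔ (rel f ⊔ mono (has K)))
    (h4 : Dloc δ ω f ∅ x ∈ rel f ⊔ mono (has K)) :
    ∃ (N : ℕ) (x' : Sp (E ⊕ J) (O ⊕ J)),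
      x' ∈ YY Al c j₀ K (h * d + d * h) P (γ + N • -c (tv j₀)) p ∧
      Dloc δ ω f ∅ x' ∈ mono (has K) ∧ x' - mul (f j₀ ^ N) x ∈ rel f := by
  classical
  obtain ⟨w, hw⟩ := split_rel (f := f) (K := K) (proj_linI fun g g₁ g₂ μ a1 a2 a3 j hj => by
    refine a3 j ?_
    have e1 : (ev j : Gn E O J) ≠ g₁ := fun e => H.good.alE j (e ▸ (H.nu_sp a1).1)
    have e2 : (ev j : Gn E O J) ≠ g₂ := fun e => H.good.alE j (e ▸ (H.nu_sp a2).1)
    rw [Pi.add_apply, Pi.single_eq_of_ne e2] at hj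
    rwa [Pi.add_apply, Pi.single_eq_of_ne e1]) (H.ZZ_pat h1) h3
  obtain ⟨w', hw'⟩ := split_rel (f := f) (K := K) (I := ⊥) (j₀ := j₀)
    (fun y hy => by rw [(Submodule.mem_bot ℂ).1 hy, map_zero]; exact Submodule.zero_mem _)
    (H.ZZ_pat (H.good.Dloc_ZZ (Finset.empty_subset _) h1)) (Submodule.mem_sup_right h4)
  rw [bot_sup_eq] at hw'
  obtain ⟨N, hN⟩ := clear H.good.tfree j₀ {x, w, w'}
  obtain ⟨ρ, c1, c2, c3, -, c5, c6⟩ := hN N le_rfl
  have c7 : ∀ C, Cls f j₀ C → ∀ y ∈ C, ρ y ∈ C := fun C hC => c6 C hC.1 hC.2.1 hC.2.2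
  have a1 := c7 _ (H.cls_cech p) x (mono_le (fun μ hμ => ⟨hμ.1, hμ.2.2⟩) h1)
  have a2 := c1 x (by simp)
  have a3 := c7 _ (H.cls_P.sup H.cls_has) x h2
  have a4 := c7 _ (H.cls_linI.sup H.cls_has) _ hw
  rw [map_sub, c3 w (by simp), sub_zero] at a4
  have a5 := c7 _ H.cls_has _ hw'
  rw [map_sub, c3 w' (by simp), sub_zero, ← Module.End.mul_apply, ← c5 _ H.D_tv H.D_dr H.D_F,
    Module.End.mul_apply] at a5
  obtain ⟨z, a6, a7⟩ := c2 x (by simp)
  have a8 : ρ x - mul (f j₀ ^ N) x ∈ rel f := by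
    have b := cls_ev (O := O) (f := f) (j₀ := j₀)
    rw [a6]
    exact rel_gen j₀ (a7 _ b.1 b.2.1 b.2.2
      (mono_le (fun μ hμ => ((cech_iff H.good μ).1 hμ.1).2) h1))
  have a9 : mul (f j₀ ^ N) x ∈ mono fun μ => ws c μ = γ + N • -c (tv j₀) := by
    have e : (mul (f j₀ ^ N) : Op E O J) = mul (f j₀) ^ N := map_pow mulA _ _
    rw [e]
    refine pow_mem_fam (fun γ => mono fun μ => ws c μ = γ) _ _ (fun γ y hy => ?_) N γ
      (mono_le (fun μ hμ => hμ.2.1) h1)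
    exact words_apply_mem H.F_mem hy fun a b ha hb => by rw [ws_add, ha.1.2, hb, add_comm]
  refine ⟨N, proj (fun μ => ws c μ = γ + N • -c (tv j₀)) (ρ x), ?_⟩
  generalize γ + N • -c (tv j₀) = γ' at a9 ⊢
  refine ⟨⟨⟨⟨?_, proj_mem_of a2⟩, ?_⟩, ?_⟩, ?_, ?_⟩
  · have b := Submodule.mem_inf.2 ⟨proj_mem_of (P := fun μ => ws c μ = γ') a1,
      proj_mem (P := fun μ => ws c μ = γ') (ρ x)⟩
    rw [← mono_and] at b
    exact mono_le (fun μ hμ => ⟨hμ.1.1, hμ.2, hμ.1.2⟩) b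
  · exact map_sup_mem (fun _ hy => Submodule.mem_sup_left (proj_mem_of hy))
      (fun _ hy => Submodule.mem_sup_right (proj_mem_of hy)) a3
  · refine map_sup_mem (fun y hy => Submodule.mem_sup_left (proj_linI ?_ y hy))
      (fun _ hy => Submodule.mem_sup_right (proj_mem_of hy)) a4
    intro g g₁ g₂ μ b1 b2 b3
    rw [ws_add, ws_single] at b3 ⊢
    rw [(H.nu_sp b2).2.1, ← (H.nu_sp b1).2.1, b3]
  · rw [← proj_comm (A := fun _ => True) (P' := fun μ => ws c μ = γ') (L := Dloc δ ω f ∅)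
      (fun y hy => H.good.Dloc_wt ∅ (fun a => a = γ') (mono_le (fun μ hμ => hμ.2) hy))
      (fun y hy => H.good.Dloc_wt ∅ (fun a => ¬ a = γ') (mono_le (fun μ hμ => hμ.2) hy))
      (mem_mono.2 fun _ _ _ => trivial)]
    exact proj_mem_of a5
  · have b := H.good.proj_wt_rel (fun a => a = γ') a8
    rwa [map_sub, proj_eq_self a9] at b

theorem acy (γ : Γ) : Acy (Dloc δ ω f ∅)
    (fun p => ZZ Al c {j₀} ∅ γ p ⊓ (mono P ⊔ mono (has K)) ⊓
      (linI (h * d + d * h) ⊔ (rel f ⊔ mono (has K)))) (rel f ⊔ mono (has K)) := by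
  intro p x hx hDx
  obtain ⟨N, x', a1, a2, a3⟩ := H.clear_den hx.1.1 hx.1.2 hx.2 hDx
  obtain ⟨y, b1, b2⟩ := H.ex_free _ p x' a1 a2
  refine ⟨((gn (tv j₀) : Op E O J) ^ N) y, ⟨⟨?_, ?_⟩, ?_⟩, ?_⟩
  · have b3 := pow_mem_fam (fun γ => ZZ Al c {j₀} ∅ γ (!p)) (gn (tv j₀)) (c (tv j₀))
      (fun γ u hu => gn_mem _ hu fun μ hμ => ⟨(H.cech_tv μ).2 hμ.1, by
        rw [ws_add, ws_single, hμ.2.1], by
        rw [od_add, od_single, hμ.2.2]
        exact Bool.xor_false _⟩) N _ b1.1.1.1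
    rwa [smul_neg, neg_add_cancel_right] at b3
  · exact pow_mem_sub _ _ (H.cls_P.sup H.cls_has).2.1 N b1.1.2
  · have b3 : linI (h * d + d * h) ⊔ mono (has K) ≤
        linI (h * d + d * h) ⊔ (rel f ⊔ mono (has K)) := sup_le_sup_left le_sup_right _
    exact b3 (pow_mem_sub _ _ (H.cls_linI.sup H.cls_has).2.1 N b1.2)
  · have e1 : Dloc δ ω f ∅ * gn (tv j₀) ^ N = gn (tv j₀) ^ N * Dloc δ ω f ∅ :=
      (Commute.pow_right H.D_tv N).eq
    have e2 : (gn (tv j₀) ^ N * mul (f j₀ ^ N) : Op E O J) = mul (f j₀ * X (.inr j₀) - 1) *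
        mul (∑ i ∈ range N, (f j₀ * X (.inr j₀)) ^ i) + 1 := by
      have e3 : (gn (tv j₀) : Op E O J) = mulA (X (.inr j₀)) := rfl
      change _ * mulA _ = mulA _ * mulA _ + 1
      rw [e3, ← map_pow, ← map_mul, ← map_mul, mul_geom_sum, map_sub, map_one, sub_add_cancel,
        mul_pow, mul_comm]
    have e4 : x - Dloc δ ω f ∅ (((gn (tv j₀) : Op E O J) ^ N) y) =
        -(mul (f j₀ * X (.inr j₀) - 1) (mul (∑ i ∈ range N, (f j₀ * X (.inr j₀)) ^ i) x) +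
          ((gn (tv j₀) : Op E O J) ^ N) (x' - mul (f j₀ ^ N) x)) +
        ((gn (tv j₀) : Op E O J) ^ N) (x' - Dloc δ ω f ∅ y) := by
      have e5 := LinearMap.congr_fun e2 x
      rw [Module.End.mul_apply, LinearMap.add_apply, Module.End.mul_apply,
        Module.End.one_apply] at e5
      rw [← Module.End.mul_apply (Dloc δ ω f ∅), e1, Module.End.mul_apply, map_sub, map_sub, e5]
      abel
    rw [e4]
    refine Submodule.add_mem_sup (Submodule.neg_mem _ (Submodule.add_mem _ (rel_gen j₀ ?_) ?_))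
      (pow_mem_sub _ _ H.cls_has.2.1 N b2)
    · refine words_apply_mem (P := fun _ => True) (P' := fun μ => μ (ev j₀) ≠ 0)
        (mul_mem_words_of_pol (pol_mem.2 fun _ _ => trivial))
        (mono_le (fun μ hμ => ((cech_iff H.good μ).1 hμ.1).2) hx.1.1) fun a b _ hb => ?_
      rw [Pi.add_apply]
      omega
    · exact pow_mem_sub _ _ (fun u hu =>
        words_rel (gn_mem_words (P := fun _ => True) trivial) hu) N a3

end Ctx

theorem elim : ElimStmt := by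
  intro E O J Γ _ _ _ _ _ _ _ Al c δ ω f hG j₀ K h1 h2 h3 h4 l h5 d h h6 h7 h8 h9 h10 h11 P h12
    h13 h14 h15 γ
  exact Ctx.acy ⟨hG, h1, h2, h3, h4, h5, h6, h7, h8, h9, h10, h11, h12, h13, h14, h15⟩ γ

end Pool.Agent.MP_8be872_ag.H80
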