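import Pool.Agent.MP_8be872_ag.H63.LocA
import Pool.Agent.MP_8be872_ag.H63.SpecA
import Pool.Agent.MP_8be872_ag.H80.ElimA

/-! The ideal generated by an acyclic complex of linear forms: the case without denominators. -/

set_option linter.unusedSectionVars false

namespace Pool.Agent.MP_8be872_ag.H80

open Finset H38 H56 H63 MvPolynomial

variable {E O J Γ : Type} [Fintype E] [Fintype O] [Fintype J] [DecidableEq E] [DecidableEq O]
  [DecidableEq J] [AddCommGroup Γ]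

/-- The hypotheses of the module. -/
structure Ctx (Al : Gn E O J → Prop) (c : Gn E O J → Γ) (δ : Gn E O J → Op E O J) (ω : Op E O J)
    (f : J → MvPolynomial (E ⊕ J) ℂ) (j₀ : J) (K : Gn E O J → Prop) (l : Γ →+ ℤ)
    (d h : Matrix (Gn E O J) (Gn E O J) ℂ) (P : (Gn E O J → ℕ) → Prop) : Prop where
  good : Good Al c δ ω f
  kAl : ∀ g, K g → Al g
  kst : ∀ g, K g → δ g ∈ words (has K)
  om : ω ∈ words (has K)
  cf : vf δ * mul (f j₀) = mul (f j₀) * vf δ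
  pos : ∀ g, Al g → ¬ K g → 0 < l (c g)
  sp : ∀ g g', d g g' ≠ 0 ∨ h g g' ≠ 0 →
    Al g ∧ ¬ K g ∧ Al g' ∧ ¬ K g' ∧ c g' = c g ∧ g'.isRight = !g.isRight
  lead : ∀ g, δ g - lin (d g) ∈ words fun μ => has K μ ∨ 2 ≤ ∑ g', μ g'
  dd : d * d = 0
  hh : h * h = 0
  idem : (h * d + d * h) * (h * d + d * h) = h * d + d * h
  dI : ∀ x ∈ linI (h * d + d * h), Dloc δ ω f ∅ x ∈ linI (h * d + d * h) ⊔ mono (has K)
  pa : ∀ (μ : Gn E O J → ℕ) g g', d g g' ≠ 0 ∨ h g g' ≠ 0 →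
    P (μ + Pi.single g 1) → P (μ + Pi.single g' 1)
  pT : ∀ μ : Gn E O J → ℕ, P (μ + Pi.single (tv j₀) 1) ↔ P μ
  pf : ∀ m, coeff m (f j₀) ≠ 0 → ∀ μ, P μ → P (μ + ex ∅ m)
  pD : ∀ x ∈ mono P, Dloc δ ω f ∅ x ∈ mono P ⊔ mono (has K)

theorem linI_map {ν : Matrix (Gn E O J) (Gn E O J) ℂ} {L : Op E O J}
    {C : Submodule ℂ (Sp (E ⊕ J) (O ⊕ J))} (h : ∀ g y, L (lin (ν g) y) ∈ C) :
    ∀ x ∈ linI ν, L x ∈ C := by
  have h1 : linI ν ≤ C.comap L := iSup_le fun g => by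
    rintro _ ⟨y, rfl⟩
    exact h g y
  exact fun x hx => h1 hx

theorem lin_mem_linI (ν : Matrix (Gn E O J) (Gn E O J) ℂ) (g : Gn E O J)
    (y : Sp (E ⊕ J) (O ⊕ J)) : lin (ν g) y ∈ linI ν :=
  Submodule.mem_iSup_of_mem g ⟨y, rfl⟩

theorem proj_linI {ν : Matrix (Gn E O J) (Gn E O J) ℂ} {Q : (Gn E O J → ℕ) → Prop}
    (h : ∀ g g₁ g₂ (μ : Gn E O J → ℕ), ν g g₁ ≠ 0 → ν g g₂ ≠ 0 → Q (μ + Pi.single g₁ 1) →
      Q (μ + Pi.single g₂ 1)) : ∀ x ∈ linI ν, proj Q x ∈ linI ν := by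
  refine linI_map fun g y => ?_
  have hw : (lin (ν g) : Op E O J) ∈ words fun μ => ∃ g', ν g g' ≠ 0 ∧ μ = Pi.single g' 1 :=
    lin_mem fun g' hg => ⟨g', hg, rfl⟩
  rw [proj_comm (A := fun _ => True)
    (P := fun μ => ∃ g', ν g g' ≠ 0 ∧ Q (μ + Pi.single g' 1)) (fun y hy => ?_) (fun y hy => ?_)
    (mem_mono.2 fun _ _ _ => trivial)]
  · exact lin_mem_linI _ _ _
  · refine words_apply_mem hw hy ?_
    rintro a b ⟨g₂, h2, rfl⟩ ⟨-, g₁, h1, h3⟩
    rw [add_comm]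
    exact h g g₁ g₂ b h1 h2 h3
  · refine words_apply_mem hw hy ?_
    rintro a b ⟨g₂, h2, rfl⟩ ⟨-, h3⟩ h4
    rw [add_comm] at h4
    exact h3 ⟨g₂, h2, h4⟩

theorem lv_linI {ν a : Matrix (Gn E O J) (Gn E O J) ℂ} (hν : Par ν false) (ha : Par a true)
    (hc : ν * a = a * ν) : ∀ x ∈ linI ν, lv a x ∈ linI ν := by
  refine linI_map fun g y => ?_
  have h1 := lv_lin ha ν g (sg g.isRight) fun g' hg => by
    rw [hν g g' hg, Bool.true_and, Bool.xor_false]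
  rw [hc, lin_mul, sub_eq_iff_eq_add] at h1
  rw [← Module.End.mul_apply, h1, LinearMap.add_apply, LinearMap.sum_apply]
  refine Submodule.add_mem _ (Submodule.sum_mem _ fun g' _ => ?_) ?_
  · exact Submodule.smul_mem _ _ (lin_mem_linI _ _ _)
  · exact Submodule.smul_mem _ _ (lin_mem_linI _ _ _)

variable {Al : Gn E O J → Prop} {c : Gn E O J → Γ} {δ : Gn E O J → Op E O J} {ω : Op E O J}
  {f : J → MvPolynomial (E ⊕ J) ℂ} {j₀ : J} {K : Gn E O J → Prop} {l : Γ →+ ℤ}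
  {d h : Matrix (Gn E O J) (Gn E O J) ℂ} {P : (Gn E O J → ℕ) → Prop}

theorem cech_iff (hG : Good Al c δ ω f) (μ : Gn E O J → ℕ) : cech Al {j₀} ∅ μ ↔
    (∀ g, μ g ≠ 0 → Al g ∨ g = tv j₀ ∨ g = ev j₀) ∧ μ (ev j₀) ≠ 0 := by
  constructor
  · rintro ⟨h1, h2, -⟩
    have h3 : ∀ j, μ (ev j) ≠ 0 → j = j₀ := fun j hj => by
      rcases h1 _ hj with h | ⟨j', h, -⟩ | ⟨j', h, h'⟩
      · exact absurd h (hG.alE j)
      · exact absurd h (by simp)
      · obtain rfl : j = j' := by simpa using h'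
        simpa using h
    refine ⟨fun g hg => ?_, h2 j₀ (Finset.mem_singleton_self _)⟩
    rcases h1 g hg with h | ⟨j, h, h'⟩ | ⟨j, h, h'⟩
    · exact Or.inl h
    · exact Or.inr (Or.inl (by rw [h, h3 j h']))
    · obtain rfl : j = j₀ := by simpa using h
      exact Or.inr (Or.inr h')
  · rintro ⟨h1, h2⟩
    refine ⟨fun g hg => ?_, fun j hj => by rwa [Finset.mem_singleton.1 hj], j₀, h2⟩
    rcases h1 g hg with h | h | h
    · exact Or.inl h
    · exact Or.inr (Or.inl ⟨j₀, h, h2⟩)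
    · exact Or.inr (Or.inr ⟨j₀, by simp, h⟩)

/-- The complex without denominators. -/
noncomputable def YY (Al : Gn E O J → Prop) (c : Gn E O J → Γ) (j₀ : J) (K : Gn E O J → Prop)
    (ν : Matrix (Gn E O J) (Gn E O J) ℂ) (P : (Gn E O J → ℕ) → Prop) (γ : Γ) (p : Bool) :
    Submodule ℂ (Sp (E ⊕ J) (O ⊕ J)) :=
  ZZ Al c {j₀} ∅ γ p ⊓ (mono fun μ => μ (tv j₀) = 0) ⊓ (mono P ⊔ mono (has K)) ⊓
    (linI ν ⊔ mono (has K))

namespace Ctx

variable (H : Ctx Al c δ ω f j₀ K l d h P)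
include H

theorem nu_sp {g g' : Gn E O J} (hg : (h * d + d * h) g g' ≠ 0) :
    Al g' ∧ c g' = c g ∧ g'.isRight = g.isRight := by
  have h1 : ∃ a, (d g a ≠ 0 ∨ h g a ≠ 0) ∧ (d a g' ≠ 0 ∨ h a g' ≠ 0) := by
    by_contra hc
    push Not at hc
    apply hg
    rw [Matrix.add_apply, Matrix.mul_apply, Matrix.mul_apply, Finset.sum_eq_zero fun a _ => ?_,
      Finset.sum_eq_zero fun a _ => ?_, add_zero]
    · by_cases e : d g a = 0
      · rw [e, zero_mul]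
      · rw [(hc a (Or.inl e)).2, mul_zero]
    · by_cases e : h g a = 0
      · rw [e, zero_mul]
      · rw [(hc a (Or.inr e)).1, mul_zero]
  obtain ⟨a, h2, h3⟩ := h1
  obtain ⟨-, -, -, -, a1, a2⟩ := H.sp g a h2
  obtain ⟨-, -, b0, -, b1, b2⟩ := H.sp a g' h3
  exact ⟨b0, b1.trans a1, by rw [b2, a2, Bool.not_not]⟩

theorem parN : Par (h * d + d * h) false := fun g g' hg => by
  rw [(H.nu_sp hg).2.2, Bool.xor_false]

theorem parD : Par d true := fun g g' hg => by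
  rw [(H.sp g g' (Or.inl hg)).2.2.2.2.2, Bool.xor_true]

theorem parH : Par h true := fun g g' hg => by
  rw [(H.sp g g' (Or.inr hg)).2.2.2.2.2, Bool.xor_true]

theorem comm_linI {L : Op E O J} (hL : ∀ g, Al g → L * gn g = gn g * L) :
    ∀ x ∈ linI (h * d + d * h), L x ∈ linI (h * d + d * h) := by
  refine linI_map fun g y => ?_
  rw [← Module.End.mul_apply, comm_words hL
    (lin_mem fun g' hg => sup_single.2 (H.nu_sp hg).1), Module.End.mul_apply]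
  exact lin_mem_linI _ _ _

theorem ne_tv {g : Gn E O J} (hg : Al g) : g ≠ tv j₀ := fun e => H.good.alT j₀ (e ▸ hg)

theorem ne_ev {g : Gn E O J} (hg : Al g) : g ≠ ev j₀ := fun e => H.good.alE j₀ (e ▸ hg)

theorem dl_tv : dl δ f (tv j₀) = 0 := by
  change -(gn (tv j₀) * gn (tv j₀) * (vf δ * mul (f j₀) - mul (f j₀) * vf δ)) = 0
  rw [H.cf, sub_self, mul_zero, neg_zero]

theorem al_le {Q : (Gn E O J → ℕ) → Prop} :
    (words fun μ => H63.sup Al μ ∧ Q μ) ≤ words (H63.sup fun g => g ≠ tv j₀) :=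
  words_le fun _ hμ g hg => H.ne_tv (hμ.1 g hg)

theorem dl_mem (g : Gn E O J) : dl δ f g ∈ words (H63.sup fun g => g ≠ tv j₀) := by
  rcases g with (e | j) | o
  · exact H.al_le (H.good.dw _)
  · by_cases hj : j = j₀
    · rw [hj]
      exact H.dl_tv ▸ Submodule.zero_mem _
    · have h1 : (gn (tv j) : Op E O J) ∈ words (H63.sup fun g => g ≠ tv j₀) :=
        gn_mem_words (sup_single.2 (by simpa using hj))
      exact Submodule.neg_mem _ (mul_mem_words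
        (mul_mem_words h1 h1 fun a b ha hb => H63.sup_add.2 ⟨ha, hb⟩)
        (H.al_le (H.good.uu_mem j)) fun a b ha hb => H63.sup_add.2 ⟨ha, hb⟩)
  · exact H.al_le (H.good.dw _)

theorem D_eq : Dloc δ ω f ∅ = vf (dl δ f) + ω := by
  rw [H.good.Dloc_eq, Finset.sum_empty, add_zero]

theorem D_tv : Dloc δ ω f ∅ * gn (tv j₀) = gn (tv j₀) * Dloc δ ω f ∅ := by
  have h1 := H.good.Dloc_gn ∅ (tv j₀)
  rw [H.dl_tv] at h1
  have h2 : sg (tv j₀ : Gn E O J).isRight = 1 := rfl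
  rw [h2, one_smul] at h1
  exact sub_eq_zero.1 h1

theorem F_mem : (mul (f j₀) : Op E O J) ∈
    words fun μ => (H63.sup Al μ ∧ ws c μ = -c (tv j₀)) ∧ od μ = false := by
  refine mul_mem_words_of_pol (pol_mem.2 fun m hm => ⟨pol_mem.1 (H.good.fw j₀) m hm, ?_⟩)
  simp [od, ex]

theorem D_F : Dloc δ ω f ∅ * mul (f j₀) = mul (f j₀) * Dloc δ ω f ∅ := by
  have h1 := H.good.Dloc_words ∅ (a := false)
    (words_le (fun μ hμ => ⟨hμ.1.1, hμ.2⟩) H.F_mem)
  rw [sg_false, one_smul, one_smul, H.cf, sub_self] at h1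
  exact sub_eq_zero.1 h1

omit H in
theorem dr_tv_gn {g : Gn E O J} (hg : g ≠ tv j₀) :
    (dr (tv j₀) * gn g : Op E O J) = gn g * dr (tv j₀) := by
  have h1 := dr_mul_gn (tv j₀ : Gn E O J) g
  rw [if_neg (Ne.symm hg), add_zero] at h1
  rw [h1]
  exact one_smul _ _

theorem D_dr : Dloc δ ω f ∅ * dr (tv j₀) = dr (tv j₀) * Dloc δ ω f ∅ := by
  rw [H.D_eq, add_mul, mul_add, comm_words (fun g hg => dr_tv_gn hg) (H.al_le H.good.ow), vf,
    Finset.sum_mul, Finset.mul_sum]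
  congr 1
  refine Finset.sum_congr rfl fun g _ => ?_
  have h1 : (dr (tv j₀) * dr g : Op E O J) = dr g * dr (tv j₀) :=
    (dr_mul_dr (tv j₀ : Gn E O J) g).trans (one_smul _ _)
  rw [← mul_assoc, comm_words (fun g hg => dr_tv_gn hg) (H.dl_mem g), mul_assoc, mul_assoc, h1]

theorem D_free {x : Sp (E ⊕ J) (O ⊕ J)} (hx : x ∈ mono fun μ => μ (tv j₀) = 0) :
    Dloc δ ω f ∅ x ∈ mono fun μ => μ (tv j₀) = 0 := by
  have h0 : ∀ ν : Gn E O J → ℕ, H63.sup (fun g => g ≠ tv j₀) ν → ν (tv j₀) = 0 := fun ν hν => by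
    by_contra hc
    exact hν _ hc rfl
  rw [H.D_eq, LinearMap.add_apply]
  refine Submodule.add_mem _ (vf_mem H.dl_mem hx fun g μ ν h1 h2 => ?_)
    (words_apply_mem (H.al_le H.good.ow) hx fun a b h1 h2 => ?_)
  · rw [Pi.add_apply] at h1 ⊢
    rw [h0 ν h2]
    omega
  · rw [Pi.add_apply, h0 a h1, h2]

theorem D_has {x : Sp (E ⊕ J) (O ⊕ J)} (hx : x ∈ mono (has K)) :
    Dloc δ ω f ∅ x ∈ mono (has K) := H.good.Dloc_has ∅ H.kAl H.kst hx

theorem D_YY {γ : Γ} {p : Bool} {x : Sp (E ⊕ J) (O ⊕ J)}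
    (hx : x ∈ YY Al c j₀ K (h * d + d * h) P γ p) :
    Dloc δ ω f ∅ x ∈ YY Al c j₀ K (h * d + d * h) P γ (!p) :=
  ⟨⟨⟨H.good.Dloc_ZZ (Finset.empty_subset _) hx.1.1.1, H.D_free hx.1.1.2⟩,
    map_sup_mem H.pD (fun _ hy => Submodule.mem_sup_right (H.D_has hy)) hx.1.2⟩,
    map_sup_mem H.dI (fun _ hy => Submodule.mem_sup_right (H.D_has hy)) hx.2⟩

theorem lv_has {a : Matrix (Gn E O J) (Gn E O J) ℂ}
    (ha : ∀ g g', a g g' ≠ 0 → d g g' ≠ 0 ∨ h g g' ≠ 0) {x : Sp (E ⊕ J) (O ⊕ J)}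
    (hx : x ∈ mono (has K)) : lv a x ∈ mono (has K) :=
  lv_mem (fun g g' _ h1 h2 => has_add.2 (Or.inl ((has_add.1 h2).resolve_right fun h3 =>
    (H.sp g g' (ha g g' h1)).2.1 (has_single.1 h3)))) hx

theorem lv_YY {a : Matrix (Gn E O J) (Gn E O J) ℂ}
    (ha : ∀ g g', a g g' ≠ 0 → d g g' ≠ 0 ∨ h g g' ≠ 0)
    (hc : (h * d + d * h) * a = a * (h * d + d * h)) {γ : Γ} {p : Bool}
    {x : Sp (E ⊕ J) (O ⊕ J)} (hx : x ∈ YY Al c j₀ K (h * d + d * h) P γ p) :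
    lv a x ∈ YY Al c j₀ K (h * d + d * h) P γ (!p) := by
  have hp : Par a true := fun g g' hg => by
    rw [(H.sp g g' (ha g g' hg)).2.2.2.2.2, Bool.xor_true]
  refine ⟨⟨⟨lv_mem (fun g g' μ h1 h2 => ?_) hx.1.1.1, lv_mem (fun g g' μ h1 h2 => ?_) hx.1.1.2⟩,
    map_sup_mem (fun y hy => Submodule.mem_sup_left
      (lv_mem (fun g g' μ h1 h2 => H.pa μ g g' (ha g g' h1) h2) hy))
      (fun _ hy => Submodule.mem_sup_right (H.lv_has ha hy)) hx.1.2⟩,
    map_sup_mem (fun y hy => Submodule.mem_sup_left (lv_linI H.parN hp hc y hy))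
      (fun _ hy => Submodule.mem_sup_right (H.lv_has ha hy)) hx.2⟩
  · obtain ⟨a1, -, a2, -, a3, a4⟩ := H.sp g g' (ha g g' h1)
    obtain ⟨b1, b2, b3⟩ := h2
    rw [cech_iff H.good] at b1
    refine ⟨(cech_iff H.good _).2 ⟨fun g₁ hg₁ => ?_, ?_⟩, ?_, ?_⟩
    · by_cases e : g₁ = g'
      · exact Or.inl (e ▸ a2)
      · rw [Pi.add_apply, Pi.single_eq_of_ne e, add_zero] at hg₁
        refine b1.1 g₁ ?_
        rw [Pi.add_apply]
        omega
    · have b4 := b1.2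
      rw [Pi.add_apply, Pi.single_eq_of_ne (H.ne_ev a1).symm] at b4
      rw [Pi.add_apply]
      omega
    · rw [ws_add, ws_single] at b2 ⊢
      rw [a3, b2]
    · rw [od_add, od_single] at b3 ⊢
      rw [a4, ← b3]
      cases od μ <;> cases g.isRight <;> rfl
  · obtain ⟨-, -, a2, -⟩ := H.sp g g' (ha g g' h1)
    rw [Pi.add_apply] at h2 ⊢
    rw [Pi.single_eq_of_ne (H.ne_tv a2).symm]
    omega

theorem nu_d : (h * d + d * h) * d = d * (h * d + d * h) := by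
  rw [add_mul, mul_add, mul_assoc h, H.dd, ← mul_assoc d d, H.dd, mul_zero, zero_mul, zero_add,
    add_zero, mul_assoc]

theorem nu_h : (h * d + d * h) * h = h * (h * d + d * h) := by
  rw [add_mul, mul_add, mul_assoc d, H.hh, ← mul_assoc h h, H.hh, mul_zero, zero_mul, zero_add,
    add_zero, mul_assoc]

/-- The linear part of the differential is exact. -/
theorem ex_lin (γ : Γ) (p : Bool) : Ex (lv d) (YY Al c j₀ K (h * d + d * h) P γ (!p))
    (YY Al c j₀ K (h * d + d * h) P γ p) (mono (has K)) := by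
  have hd : ∀ g g', d g g' ≠ 0 → d g g' ≠ 0 ∨ h g g' ≠ 0 := fun _ _ => Or.inl
  have hh : ∀ g g', h g g' ≠ 0 → d g g' ≠ 0 ∨ h g g' ≠ 0 := fun _ _ => Or.inr
  refine ex_of_homotopy (lv h) (fun x hx => ?_) (fun x _ => ?_) (fun x _ hx => H.lv_has hd hx)
    (fun x hx => H.lv_YY hh H.nu_h hx) (fun x hx hx' => ⟨?_, H.lv_has hh hx'⟩) fun x hx _ => ?_
  · simpa only [Bool.not_not] using H.lv_YY hd H.nu_d hx
  · rw [← Module.End.mul_apply, lv_sq H.parD H.dd]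
    exact Submodule.zero_mem _
  · have h1 := H.lv_YY hh H.nu_h (H.lv_YY hd H.nu_d hx)
    rwa [Bool.not_not] at h1
  · obtain ⟨i, hi, k, hk, rfl⟩ := Submodule.mem_sup.1 hx.2
    obtain ⟨Q, h1, h2⟩ := linI_map (L := 1) (fun g y => lv_idem H.parN H.idem g y) i hi
    refine ⟨Q, by simpa using h1 0 le_rfl, ?_⟩
    have h3 : ∀ y ∈ mono (has K), (lv d * lv h + lv h * lv d) y ∈ mono (has K) := fun y hy =>
      Submodule.add_mem _ (H.lv_has hd (H.lv_has hh hy)) (H.lv_has hh (H.lv_has hd hy))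
    have h4 : Polynomial.aeval (lv d * lv h + lv h * lv d) Q k ∈ mono (has K) := by
      rw [Polynomial.aeval_endomorphism, Polynomial.sum]
      exact Submodule.sum_mem _ fun n _ => Submodule.smul_mem _ _ (pow_mem_sub _ _ h3 n hk)
    rw [map_add]
    refine Submodule.add_mem _ ?_ h4
    rw [lv_anti H.parD H.parH]
    exact (show Polynomial.aeval (lv (h * d + d * h)) Q i = 0 from h2) ▸ Submodule.zero_mem _

theorem proj_YY {Q : (Gn E O J → ℕ) → Prop}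
    (hQ : ∀ g g₁ g₂ (μ : Gn E O J → ℕ), (h * d + d * h) g g₁ ≠ 0 → (h * d + d * h) g g₂ ≠ 0 →
      Q (μ + Pi.single g₁ 1) → Q (μ + Pi.single g₂ 1)) {γ : Γ} {p : Bool}
    {x : Sp (E ⊕ J) (O ⊕ J)} (hx : x ∈ YY Al c j₀ K (h * d + d * h) P γ p) :
    proj Q x ∈ YY Al c j₀ K (h * d + d * h) P γ p :=
  ⟨⟨⟨proj_mem_of hx.1.1.1, proj_mem_of hx.1.1.2⟩,
    map_sup_mem (fun _ hy => Submodule.mem_sup_left (proj_mem_of hy))
      (fun _ hy => Submodule.mem_sup_right (proj_mem_of hy)) hx.1.2⟩,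
    map_sup_mem (fun y hy => Submodule.mem_sup_left (proj_linI hQ y hy))
      (fun _ hy => Submodule.mem_sup_right (proj_mem_of hy)) hx.2⟩

omit H in
theorem deg_add (μ : Gn E O J → ℕ) (g : Gn E O J) :
    ∑ g', (μ + Pi.single g 1 : Gn E O J → ℕ) g' = ∑ g', μ g' + 1 := by
  simp [Finset.sum_add_distrib]

theorem YY_sup {γ : Γ} {p : Bool} : YY Al c j₀ K (h * d + d * h) P γ p ≤
    mono (H63.sup fun g => Al g ∨ g = ev j₀) := fun x hx => by
  have h1 : x ∈ mono fun μ => (cech Al {j₀} ∅ μ ∧ ws c μ = γ ∧ od μ = p) ∧ μ (tv j₀) = 0 := by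
    rw [mono_and]
    exact hx.1.1
  refine mono_le (fun μ hμ g hg => ?_) h1
  rcases ((cech_iff H.good μ).1 hμ.1.1).1 g hg with h2 | h2 | h2
  · exact Or.inl h2
  · exact absurd hμ.2 (h2 ▸ hg)
  · exact Or.inr h2

theorem deg_bound {γ : Γ} {p : Bool} {x : Sp (E ⊕ J) (O ⊕ J)}
    (hx : x ∈ YY Al c j₀ K (h * d + d * h) P γ p) :
    x - ∑ k ∈ range ((l γ).toNat + 2), proj (fun μ => ∑ g, μ g = k) x ∈ mono (has K) := by
  have h1 := sum_proj_lt (fun μ => ∑ g, μ g) ((l γ).toNat + 2) x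
  have h2 : x ∈ mono fun μ => H63.sup (fun g => Al g ∨ g = ev j₀) μ ∧ ws c μ = γ := by
    rw [mono_and]
    exact ⟨H.YY_sup hx, mono_le (fun μ hμ => hμ.2.1) hx.1.1.1⟩
  have h3 := Submodule.sub_mem _ h2 (Submodule.sum_mem _
    fun k (_ : k ∈ range ((l γ).toNat + 2)) => proj_mem_of (P := fun μ => ∑ g, μ g = k) h2)
  have h4 := Submodule.mem_inf.2 ⟨h3, h1⟩
  rw [← mono_and] at h4
  refine mono_le_odd (fun μ ho hμ => ?_) h4
  by_contra hK
  obtain ⟨⟨a1, a2⟩, a3⟩ := hμ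
  have h5 : ∀ g, (μ g : ℤ) ≤ μ g • l (c g) + if g = ev j₀ then 1 else 0 := fun g => by
    by_cases e : μ g = 0
    · rw [e]
      split_ifs <;> simp
    rcases a1 g e with h6 | h6
    · have h7 := H.pos g h6 fun hk => hK ⟨g, hk, e⟩
      rw [if_neg (H.ne_ev h6), add_zero, nsmul_eq_mul]
      have h8 : (0 : ℤ) ≤ μ g := by positivity
      nlinarith
    · subst h6
      rw [if_pos rfl, H.good.wtE, map_zero, smul_zero, zero_add]
      exact_mod_cast ho (.inr j₀)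
  have h6 := Finset.sum_le_sum fun g (_ : g ∈ Finset.univ) => h5 g
  rw [Finset.sum_add_distrib, Finset.sum_ite_eq', if_pos (Finset.mem_univ _), ← Nat.cast_sum] at h6
  have h7 : ∑ g, μ g • l (c g) = l γ := by
    rw [← a2, map_ws]
    rfl
  rw [h7] at h6
  omega

omit H in
theorem proj_deg (j k : ℕ) {y : Sp (E ⊕ J) (O ⊕ J)} (hy : y ∈ mono fun μ => ∑ g, μ g = k) :
    proj (fun μ => ∑ g, μ g = j) y = if j = k then y else 0 := by
  split_ifs with e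
  · exact proj_eq_self (mono_le (fun μ h1 => h1.trans e.symm) hy)
  · refine proj_eq_zero (mono_le (P := fun μ => ∑ g, μ g = k) ?_ hy)
    intro μ h1 h2
    omega

theorem deg_YY (k : ℕ) {γ : Γ} {p : Bool} {x : Sp (E ⊕ J) (O ⊕ J)}
    (hx : x ∈ YY Al c j₀ K (h * d + d * h) P γ p) :
    proj (fun μ => ∑ g, μ g = k) x ∈ YY Al c j₀ K (h * d + d * h) P γ p := by
  refine H.proj_YY (fun g g₁ g₂ μ _ _ h3 => ?_) hx
  rw [deg_add] at h3 ⊢
  exact h3

omit H in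
theorem lv_deg (a : Matrix (Gn E O J) (Gn E O J) ℂ) {k : ℕ} {y : Sp (E ⊕ J) (O ⊕ J)}
    (hy : y ∈ mono fun μ => ∑ g, μ g = k) : lv a y ∈ mono fun μ => ∑ g, μ g = k := by
  refine lv_mem (fun g g' μ _ h2 => ?_) hy
  rw [deg_add] at h2 ⊢
  exact h2

theorem D_sub {j k : ℕ} (hjk : j ≤ k) {y : Sp (E ⊕ J) (O ⊕ J)}
    (h2 : y ∈ mono (H63.sup fun g => Al g ∨ g = ev j₀)) (h3 : y ∈ mono fun μ => ∑ g, μ g = k) :
    proj (fun μ => ∑ g, μ g = j) (Dloc δ ω f ∅ y - lv d y) ∈ mono (has K) := by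
  have h4 : vf (dl δ f) y = vf δ y := by
    refine vf_congr (fun g hg => ?_) h2
    rcases g with (e | j') | o
    · rfl
    · rcases hg with hg | hg
      · exact absurd hg (H.good.alT j')
      · exact absurd hg (by simp)
    · rfl
  have h5 : Dloc δ ω f ∅ y - lv d y = vf (δ - fun g => lin (d g)) y + ω y := by
    rw [H.D_eq, LinearMap.add_apply, h4, vf_sub, LinearMap.sub_apply, lv]
    abel
  have h6 : Dloc δ ω f ∅ y - lv d y ∈ mono fun μ => has K μ ∨ k < ∑ g, μ g := by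
    rw [h5]
    refine Submodule.add_mem _ (vf_mem (δ := δ - fun g => lin (d g))
      (Pg := fun _ μ => has K μ ∨ 2 ≤ ∑ g', μ g') H.lead h3 fun g μ ν a1 a2 => ?_)
      (words_apply_mem H.om h3 fun a b a1 _ => Or.inl (has_add.2 (Or.inl a1)))
    rcases a2 with a2 | a2
    · exact Or.inl (has_add.2 (Or.inl a2))
    · right
      rw [deg_add] at a1
      have a3 : ∑ g, (ν + μ) g = ∑ g, ν g + ∑ g, μ g := Finset.sum_add_distrib
      linarith
  have h7 := Submodule.mem_inf.2 ⟨proj_mem_of (P := fun μ => ∑ g, μ g = j) h6,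
    proj_mem (P := fun μ => ∑ g, μ g = j) _⟩
  rw [← mono_and] at h7
  exact mono_le (fun μ hμ => hμ.1.resolve_right (by have := hμ.2; omega)) h7

/-- Exactness without denominators. -/
theorem ex_free (γ : Γ) (p : Bool) : Ex (Dloc δ ω f ∅) (YY Al c j₀ K (h * d + d * h) P γ (!p))
    (YY Al c j₀ K (h * d + d * h) P γ p) (mono (has K)) := by
  have hd : ∀ g g', d g g' ≠ 0 → d g g' ≠ 0 ∨ h g g' ≠ 0 := fun _ _ => Or.inl
  refine ex_of_graded (lv d) (fun k => proj fun μ => ∑ g, μ g = k) ((l γ).toNat + 2)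
    ?_ ?_ ?_ ?_ ?_ ?_ ?_ ?_ ?_ ?_ ?_ ?_ (H.ex_lin γ p)
  · exact fun x hx => H.deg_bound hx
  · exact fun x hx => ⟨_, H.deg_bound hx⟩
  · exact fun k x hx => H.deg_YY k hx
  · exact fun k x hx => H.deg_YY k hx
  · exact fun k x hx => proj_mem_of hx
  · exact fun j k x => proj_deg j k (proj_mem x)
  · intro x hx
    have h1 := H.D_YY hx
    rwa [Bool.not_not] at h1
  · exact fun x _ hx => H.D_has hx
  · intro x _
    rw [← Module.End.mul_apply, H.good.Dloc_sq]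
    exact Submodule.zero_mem _
  · intro j k x _
    have h1 := proj_deg j k (lv_deg d (proj_mem (P := fun μ => ∑ g, μ g = k) x))
    exact (sub_eq_zero.2 h1).symm ▸ Submodule.zero_mem _
  · intro j k hjk x hx
    exact H.D_sub hjk (proj_mem_of (sup_le H.YY_sup H.YY_sup hx)) (proj_mem x)
  · exact fun x _ hx => H.lv_has hd hx

end Ctx

end Pool.Agent.MP_8be872_ag.H80
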